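import Pool.Agent.H379R3.CDQ.Stmts

set_option autoImplicit false

namespace Pool.Agent.H551R3.CDQ

open Pool.Agent.H379R3.CDQ

theorem dd_map {G M M' : Type} [AddCommGroup M] [AddCommGroup M'] {n : ℕ} (π : M →+ M')
    (h : (Fin n → G) → M) (v : Fin (n + 1) → G) :
    π (dd h v) = dd (fun w => π (h w)) v := by
  simp only [dd, map_sum, map_zsmul]

theorem dd_add {G M : Type} [AddCommGroup M] {n : ℕ} (h h' : (Fin n → G) → M)
    (v : Fin (n + 1) → G) :
    dd (fun w => h w + h' w) v = dd h v + dd h' v := by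
  simp only [dd, smul_add, Finset.sum_add_distrib]

theorem dd_sub {G M : Type} [AddCommGroup M] {n : ℕ} (h h' : (Fin n → G) → M)
    (v : Fin (n + 1) → G) :
    dd (fun w => h w - h' w) v = dd h v - dd h' v := by
  simp only [dd, smul_sub, Finset.sum_sub_distrib]

theorem lc_sum {X M ι : Type} [TopologicalSpace X] [AddCommGroup M] (s : Finset ι)
    (F : ι → X → M) (hF : ∀ i, IsLocallyConstant (F i)) :
    IsLocallyConstant (fun x => ∑ i ∈ s, F i x) := by
  classical
  induction s using Finset.induction_on with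
  | empty =>
    simp only [Finset.sum_empty]
    exact IsLocallyConstant.const (0 : M)
  | insert a s ha ih =>
    simp only [Finset.sum_insert ha]
    exact (hF a).add ih

theorem dd_lc {G M : Type} [TopologicalSpace G] [AddCommGroup M] {n : ℕ}
    (h : (Fin n → G) → M) (hh : IsLocallyConstant h) : IsLocallyConstant (dd h) := by
  have : dd h = fun v => ∑ i : Fin (n + 1), (fun (i : Fin (n + 1)) (v : Fin (n + 1) → G) =>
      (-1 : ℤ) ^ (i : ℕ) • h (fun j => v (i.succAbove j))) i v := rfl
  rw [this]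
  refine lc_sum _ _ fun i => ?_
  have hc : Continuous (fun (v : Fin (n + 1) → G) (j : Fin n) => v (i.succAbove j)) := by
    fun_prop
  exact (hh.comp_continuous hc).comp (fun m => (-1 : ℤ) ^ (i : ℕ) • m)

theorem dd_eqv {G M : Type} [Group G] [AddCommGroup M] [DistribMulAction G M] {n : ℕ}
    (h : (Fin n → G) → M) (hh : Eqv h) : Eqv (dd h) := by
  intro g v
  simp only [dd, Finset.smul_sum]
  refine Finset.sum_congr rfl fun i _ => ?_
  rw [hh g (fun j => v (i.succAbove j))]
  exact ((DistribSMul.toAddMonoidHom M g).map_zsmul _ _).symm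

theorem zx {M : Type} [AddCommGroup M] (x : M) (hx : 2 • x = 0) :
    zmultiplesHom M x ((2 : ℕ) : ℤ) = 0 := by
  rw [zmultiplesHom_apply, natCast_zsmul]
  exact hx

/-- The map from `ZMod 2` given by an element killed by two. -/
noncomputable def io {M : Type} [AddCommGroup M] (x : M) (hx : 2 • x = 0) : ZMod 2 →+ M :=
  ZMod.lift 2 ⟨zmultiplesHom M x, zx x hx⟩

theorem io_one {M : Type} [AddCommGroup M] (x : M) (hx : 2 • x = 0) : io x hx 1 = x := by
  have := ZMod.lift_coe 2 (⟨zmultiplesHom M x, zx x hx⟩ : {f : ℤ →+ M // f (2 : ℕ) = 0}) 1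
  simpa [io] using this

theorem taskStep : TaskStep := by
  intro hDD hLift G _ _ _ M M' _ _ _ _ hM hM' π hπ heq x hx hx2 hfix hker n hn hF hV f hf hfe hfc
  classical
  obtain ⟨m, rfl⟩ : ∃ m, n = m + 1 := ⟨n - 1, by omega⟩
  obtain ⟨hb, hb1, hb2, hb3⟩ := hV (fun v => π (f v)) (hf.comp π)
    (fun g v => by
      show π (f _) = g • π (f v)
      rw [hfe g v, heq])
    (fun v => by rw [← dd_map, hfc v, map_zero])
  obtain ⟨h, h1, h2, h3⟩ := hLift G M M' hM hM' π hπ heq m hb hb1 hb2
  -- the difference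
  set r : (Fin (m + 1 + 1) → G) → M := fun v => f v - dd h v with hr
  have r1 : IsLocallyConstant r := hf.sub (dd_lc h h1)
  have r2 : Eqv r := fun g v => by
    show f _ - dd h _ = g • (f v - dd h v)
    rw [hfe g v, dd_eqv h h2 g v, smul_sub]
  have r3 : ∀ v, dd r v = 0 := fun v => by
    rw [hr, dd_sub, hfc v]
    have := hDD G M (m + 1) h v
    rw [this, sub_zero]
  have r4 : ∀ v, π (r v) = 0 := fun v => by
    show π (f v - dd h v) = 0
    rw [map_sub, dd_map]
    have e : (fun w => π (h w)) = hb := funext h3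
    rw [e, hb3 v, sub_self]
  have r5 : ∀ v, r v = 0 ∨ r v = x := fun v => (hker _).1 (r4 v)
  set ι := io x hx2 with hι
  have ι1 : ι 1 = x := io_one x hx2
  set c : (Fin (m + 1 + 1) → G) → ZMod 2 := fun v => if r v = 0 then 0 else 1 with hc
  have c0 : ∀ v, ι (c v) = r v := fun v => by
    rcases r5 v with h | h
    · simp [hc, h]
    · have : r v ≠ 0 := by rw [h]; exact hx
      simp only [hc, if_neg this]
      rw [ι1, h]
  have ιinj : ∀ a : ZMod 2, ι a = 0 → a = 0 := by
    intro a ha
    fin_cases a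
    · rfl
    · exfalso
      apply hx
      rw [← ι1]
      exact ha
  have c1 : IsLocallyConstant c := r1.comp (fun m => if m = 0 then (0 : ZMod 2) else 1)
  have c2 : ∀ (g : G) (v : Fin (m + 1 + 1) → G), c (fun i => g * v i) = c v := fun g v => by
    simp only [hc, r2 g v, smul_eq_zero_iff_eq]
  have c3 : ∀ v, dd c v = 0 := fun v => by
    apply ιinj
    rw [dd_map]
    have e : (fun w => ι (c w)) = r := funext c0
    rw [e, r3 v]
  obtain ⟨b, b1, b2, b3⟩ := hF c c1 c2 c3
  refine ⟨fun v => h v + ι (b v), h1.add (b1.comp ι), ?_, ?_⟩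
  · intro g v
    show h _ + ι (b _) = g • (h v + ι (b v))
    rw [h2 g v, b2 g v, smul_add]
    congr 1
    have : ∀ a : ZMod 2, g • ι a = ι a := by
      intro a
      fin_cases a
      · show g • ι 0 = ι 0
        rw [map_zero, smul_zero]
      · show g • ι 1 = ι 1
        rw [ι1, hfix]
    rw [this]
  · intro v
    rw [dd_add, ← dd_map, ← b3 v, c0 v]
    simp [hr]

end Pool.Agent.H551R3.CDQ
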